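import Pool.Agent.Lib_helper6.Robin.WL

/-! Block DI of the Robin project (MP_88fc3a_an): dilation of test functions. -/

namespace Pool.Agent.Lib_helper6.Robin

open MeasureTheory Set Metric Filter Topology
open scoped RealInnerProductSpace ContDiff
open Pool.Agent.Lib_helper13.Robin

noncomputable section

variable {d m : ℕ} (P : PD d m)

theorem measurable_grad (f : E d → ℝ) : Measurable (gradient f) :=
  (InnerProductSpace.toDual ℝ (E d)).symm.continuous.measurable.comp (measurable_fderiv ℝ f)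

theorem continuousOn_grad {f : E d → ℝ} {s : Set (E d)} (hs : IsOpen s)
    (hf : ContDiffOn ℝ 1 f s) : ContinuousOn (gradient f) s :=
  (InnerProductSpace.toDual ℝ (E d)).symm.continuous.comp_continuousOn
    (hf.continuousOn_fderiv_of_isOpen hs le_rfl)

/-- gradient of a dilated function -/
theorem grad_dil {f : E d → ℝ} {r : ℝ} {c x : E d} (hf : DifferentiableAt ℝ f (r • x + c)) :
    gradient (fun x => f (r • x + c)) x = r • gradient f (r • x + c) := by
  have h1 : HasFDerivAt (fun x : E d => r • x + c) (r • ContinuousLinearMap.id ℝ (E d)) x := by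
    simpa using ((hasFDerivAt_id x).const_smul r).add_const c
  have h2 := hf.hasFDerivAt.comp x h1
  have h3 : fderiv ℝ (fun x => f (r • x + c)) x = r • fderiv ℝ f (r • x + c) := by
    rw [show (fun x => f (r • x + c)) = f ∘ (fun x => r • x + c) from rfl, h2.fderiv]
    ext v
    simp
  unfold gradient
  rw [h3, map_smul]

/-- **DI.** dilation approximation of test functions -/
theorem dilation {V : Set (E d)} (hV : IsOpen V) (F : E d → E d)
    (hFm : AEStronglyMeasurable F (volume.restrict P.Om))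
    (hF : IntegrableOn (fun x => ‖F x‖ ^ 2) P.Om)
    (h : ∀ φ : E d → ℝ, ContinuousOn φ P.cl → ContDiffOn ℝ 1 φ P.Om →
      IntegrableOn (fun x => ‖gradient φ x‖ ^ 2) P.Om →
      (∃ K ⊆ V, IsCompact K ∧ ∀ x ∈ P.Om, x ∉ K → φ x = 0) →
      ∫ x in P.Om, ⟪F x, gradient φ x⟫ = 0) :
    ∀ φ, Adm P V φ → ∫ x in P.Om, ⟪F x, gradient φ x⟫ = 0 := by
  intro φ hφ
  obtain ⟨x0, hx0⟩ := P.nonempty_Om
  obtain ⟨K, hKV, hK, hK0⟩ := hφ.supp
  -- the dilations
  have hAm : ∀ r : ℝ, 0 ≤ r → r < 1 → ∀ x ∈ P.cl, r • x + (1 - r) • x0 ∈ P.Om := by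
    intro r h0 h1 x hx
    have := P.seg_mem_Om hx hx0 (t := 1 - r) (by linarith) (by linarith)
    rwa [sub_sub_cancel] at this
  set G : E d → ℝ := P.Om.indicator (fun z => ‖gradient φ z‖ ^ 2) with hG
  have hGi : Integrable G := hφ.l2.integrable_indicator P.measurableSet_Om
  have hG0 : ∀ z, 0 ≤ G z := fun z => indicator_nonneg (fun _ _ => by positivity) z
  have hd : ∀ z ∈ P.Om, DifferentiableAt ℝ φ z := fun z hz =>
    (hφ.c1.differentiableOn (by norm_num)).differentiableAt (P.isOpen_Om.mem_nhds hz)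
  -- the dilated function is a test function
  have hgr : ∀ r : ℝ, 0 ≤ r → r < 1 → ∀ x ∈ P.Om,
      gradient (fun x => φ (r • x + (1 - r) • x0)) x = r • gradient φ (r • x + (1 - r) • x0) :=
    fun r h0 h1 x hx => grad_dil (hd _ (hAm r h0 h1 x (P.Om_sub_cl hx)))
  have hnorm : ∀ r : ℝ, 0 ≤ r → r < 1 → ∀ x ∈ P.Om,
      ‖gradient (fun x => φ (r • x + (1 - r) • x0)) x‖ ^ 2 =
        r ^ 2 * G (r • x + (1 - r) • x0) := by
    intro r h0 h1 x hx
    rw [hgr r h0 h1 x hx, norm_smul, mul_pow, Real.norm_eq_abs, sq_abs, hG,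
      indicator_of_mem (hAm r h0 h1 x (P.Om_sub_cl hx))]
  have hGc : ∀ r : ℝ, 0 < r → Integrable (fun x => G (r • x + (1 - r) • x0)) := by
    intro r h0
    exact (hGi.comp_add_right ((1 - r) • x0)).comp_smul h0.ne'
  have hint : ∀ r : ℝ, 0 < r → r < 1 →
      IntegrableOn (fun x => ‖gradient (fun x => φ (r • x + (1 - r) • x0)) x‖ ^ 2) P.Om := by
    intro r h0 h1
    refine (((hGc r h0).const_mul (r ^ 2)).integrableOn (s := P.Om)).congr_fun ?_ P.measurableSet_Om
    intro x hx
    exact (hnorm r h0.le h1 x hx).symm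
  have hbd : ∀ r : ℝ, 1 / 2 ≤ r → r < 1 →
      ∫ x in P.Om, ‖gradient (fun x => φ (r • x + (1 - r) • x0)) x‖ ^ 2 ≤ 2 ^ d * ∫ z, G z := by
    intro r h0 h1
    have hr : 0 < r := by linarith
    calc ∫ x in P.Om, ‖gradient (fun x => φ (r • x + (1 - r) • x0)) x‖ ^ 2
        = ∫ x in P.Om, r ^ 2 * G (r • x + (1 - r) • x0) :=
          setIntegral_congr_fun P.measurableSet_Om fun x hx => hnorm r hr.le h1 x hx
      _ ≤ ∫ x, r ^ 2 * G (r • x + (1 - r) • x0) :=
          setIntegral_le_integral ((hGc r hr).const_mul _)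
            (ae_of_all _ fun x => mul_nonneg (by positivity) (hG0 _))
      _ = r ^ 2 * ((r ^ d)⁻¹ * ∫ z, G z) := by
          rw [integral_const_mul]
          congr 1
          have h2 := Measure.integral_comp_smul (volume : Measure (E d))
            (fun x => G (x + (1 - r) • x0)) r
          rw [h2, integral_add_right_eq_self (μ := volume) G, smul_eq_mul, finrank_euclideanSpace,
            Fintype.card_fin, abs_of_nonneg (by positivity)]
      _ ≤ 1 * (2 ^ d * ∫ z, G z) := by
          have hI : 0 ≤ ∫ z, G z := integral_nonneg hG0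
          have h3 : (r ^ d)⁻¹ ≤ 2 ^ d := by
            rw [inv_le_comm₀ (by positivity) (by positivity), ← inv_pow]
            exact pow_le_pow_left₀ (by positivity) (by linarith) d
          refine mul_le_mul (by nlinarith) (mul_le_mul_of_nonneg_right h3 hI) (by positivity)
            zero_le_one
      _ = _ := one_mul _
  -- supports
  obtain ⟨δ, hδ, hδV⟩ := hK.exists_thickening_subset_open hV hKV
  obtain ⟨B, hB⟩ := (hK.isBounded.subset_closedBall x0)
  have hsupp : ∀ r : ℝ, 0 < r → r < 1 → (r⁻¹ - 1) * |B| < δ →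
      ∃ K' ⊆ V, IsCompact K' ∧ ∀ x ∈ P.Om, x ∉ K' → φ (r • x + (1 - r) • x0) = 0 := by
    intro r h0 h1 h2
    refine ⟨(fun x => r⁻¹ • (x - (1 - r) • x0)) '' K, ?_, ?_, ?_⟩
    · rintro _ ⟨x, hx, rfl⟩
      apply hδV
      rw [mem_thickening_iff]
      refine ⟨x, hx, ?_⟩
      rw [dist_eq_norm]
      have h3 : r⁻¹ • (x - (1 - r) • x0) - x = (r⁻¹ - 1) • (x - x0) := by
        have : r⁻¹ * (1 - r) = r⁻¹ - 1 := by
          rw [mul_sub, mul_one, inv_mul_cancel₀ h0.ne']
        rw [smul_sub, smul_smul, this]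
        module
      have h4 : 0 ≤ r⁻¹ - 1 := by
        rw [sub_nonneg]
        exact (one_le_inv₀ h0).mpr h1.le
      simp only
      rw [h3, norm_smul, Real.norm_of_nonneg h4]
      have h5 : ‖x - x0‖ ≤ |B| := by
        have := hB hx
        rw [mem_closedBall, dist_eq_norm] at this
        exact this.trans (le_abs_self B)
      exact (mul_le_mul_of_nonneg_left h5 h4).trans_lt h2
    · exact hK.image (by fun_prop)
    · intro x hx hx'
      refine hK0 _ (hAm r h0.le h1 x (P.Om_sub_cl hx)) fun h3 => hx' ⟨_, h3, ?_⟩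
      simp only
      rw [add_sub_cancel_right, smul_smul, inv_mul_cancel₀ h0.ne', one_smul]
  have hzero : ∀ r : ℝ, 0 < r → r < 1 → (r⁻¹ - 1) * |B| < δ →
      ∫ x in P.Om, ⟪F x, gradient (fun x => φ (r • x + (1 - r) • x0)) x⟫ = 0 := by
    intro r h0 h1 h2
    refine h _ ?_ ?_ (hint r h0 h1) (hsupp r h0 h1 h2)
    · refine hφ.c1.continuousOn.comp (by fun_prop) fun x hx => hAm r h0.le h1 x hx
    · refine hφ.c1.comp (by fun_prop) fun x hx => hAm r h0.le h1 x (P.Om_sub_cl hx)
  -- the sequence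
  have hrn : ∀ n : ℕ, 1 / 2 ≤ ((n : ℝ) + 1) / (n + 2) ∧ ((n : ℝ) + 1) / (n + 2) < 1 := by
    intro n
    have hn : (0 : ℝ) ≤ n := Nat.cast_nonneg n
    constructor
    · rw [div_le_div_iff₀ (by norm_num) (by positivity)]
      linarith
    · rw [div_lt_one (by positivity)]
      linarith
  have hlim1 : Tendsto (fun n : ℕ => ((n : ℝ) + 1) / (n + 2)) atTop (𝓝 1) := by
    have h1 : Tendsto (fun n : ℕ => 1 - 1 / ((n : ℝ) + 2)) atTop (𝓝 (1 - 0)) := by
      refine tendsto_const_nhds.sub ?_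
      have h2 := (tendsto_one_div_add_atTop_nhds_zero_nat (𝕜 := ℝ)).comp (tendsto_add_atTop_nat 1)
      refine h2.congr fun n => ?_
      simp only [Function.comp]
      push_cast
      ring_nf
    rw [sub_zero] at h1
    refine h1.congr fun n => ?_
    have hn : (n : ℝ) + 2 ≠ 0 := by positivity
    field_simp
    ring
  have hev : ∀ᶠ n : ℕ in atTop, ((((n : ℝ) + 1) / (n + 2))⁻¹ - 1) * |B| < δ := by
    have h1 : Tendsto (fun n : ℕ => ((((n : ℝ) + 1) / (n + 2))⁻¹ - 1) * |B|) atTop
        (𝓝 (((1 : ℝ)⁻¹ - 1) * |B|)) :=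
      ((hlim1.inv₀ one_ne_zero).sub_const 1).mul_const _
    rw [inv_one, sub_self, zero_mul] at h1
    exact h1.eventually_lt_const hδ
  have hw := weak_lim (μ := volume.restrict P.Om)
    (fun n : ℕ => gradient (fun x => φ ((((n : ℝ) + 1) / (n + 2)) • x +
      (1 - ((n : ℝ) + 1) / (n + 2)) • x0))) (gradient φ) F (2 ^ d * ∫ z, G z)
    (fun n => (measurable_grad _).aestronglyMeasurable)
    (fun n => hint _ (by linarith [(hrn n).1]) (hrn n).2)
    (fun n => hbd _ (hrn n).1 (hrn n).2) hFm hF (by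
      refine (ae_restrict_iff' P.measurableSet_Om).mpr (ae_of_all _ fun x hx => ?_)
      have h1 : ∀ n : ℕ, gradient (fun x => φ ((((n : ℝ) + 1) / (n + 2)) • x +
          (1 - ((n : ℝ) + 1) / (n + 2)) • x0)) x = (((n : ℝ) + 1) / (n + 2)) • gradient φ
          ((((n : ℝ) + 1) / (n + 2)) • x + (1 - ((n : ℝ) + 1) / (n + 2)) • x0) := fun n =>
        hgr _ (by linarith [(hrn n).1]) (hrn n).2 x hx
      simp only [h1]
      have h2 : Tendsto (fun n : ℕ => (((n : ℝ) + 1) / (n + 2)) • x +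
          (1 - ((n : ℝ) + 1) / (n + 2)) • x0) atTop (𝓝 ((1 : ℝ) • x + (1 - (1 : ℝ)) • x0)) :=
        (hlim1.smul_const x).add ((hlim1.const_sub 1).smul_const x0)
      rw [one_smul, sub_self, zero_smul, add_zero] at h2
      have h3 : ContinuousAt (gradient φ) x :=
        (continuousOn_grad P.isOpen_Om hφ.c1).continuousAt (P.isOpen_Om.mem_nhds hx)
      have h4 := hlim1.smul (h3.tendsto.comp h2)
      rw [one_smul] at h4
      exact h4)
  have h5 : Tendsto (fun n : ℕ => ∫ x in P.Om, ⟪gradient (fun x => φ ((((n : ℝ) + 1) / (n + 2)) • x +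
      (1 - ((n : ℝ) + 1) / (n + 2)) • x0)) x, F x⟫) atTop (𝓝 0) := by
    refine tendsto_const_nhds.congr' ?_
    filter_upwards [hev] with n hn
    rw [← hzero _ (by linarith [(hrn n).1]) (hrn n).2 hn]
    exact integral_congr_ae (ae_of_all _ fun x => real_inner_comm _ _)
  have h6 := tendsto_nhds_unique hw.2 h5
  rw [← h6]
  exact integral_congr_ae (ae_of_all _ fun x => real_inner_comm _ _)

end

end Pool.Agent.Lib_helper6.Robin
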