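import Pool.Agent.Lib_helper6.Robin.DI

/-! Block PO of the Robin project (MP_88fc3a_an): Poincare inequality on a convex domain. -/

namespace Pool.Agent.Lib_helper6.Robin

open MeasureTheory Set Metric Filter Topology
open scoped RealInnerProductSpace ContDiff ENNReal
open Pool.Agent.Lib_helper13.Robin

noncomputable section

variable {d m : ℕ} (P : PD d m)

/-- scaling of the Lebesgue integral -/
theorem lint_dil (g : E d → ℝ≥0∞) (hg : Measurable g) {r : ℝ} (hr : 1 / 2 ≤ r) (_hr1 : r ≤ 1)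
    (c : E d) : ∫⁻ y, g (r • y + c) ≤ 2 ^ d * ∫⁻ z, g z := by
  have h0 : 0 < r := by linarith
  have h1 : ∫⁻ y, g (r • y + c) = ENNReal.ofReal |(r ^ Module.finrank ℝ (E d))⁻¹| * ∫⁻ z, g (z + c) := by
    have h2 : ∫⁻ y, g (r • y + c) = ∫⁻ z, g (z + c) ∂(Measure.map (fun y : E d => r • y) volume) := by
      rw [lintegral_map (by fun_prop) (by fun_prop)]
    rw [h2, Measure.map_addHaar_smul volume h0.ne', lintegral_smul_measure, smul_eq_mul]
  rw [h1, lintegral_add_right_eq_self g c, finrank_euclideanSpace, Fintype.card_fin]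
  refine mul_le_mul_left ?_ _
  rw [abs_of_nonneg (by positivity)]
  have h3 : (r ^ d)⁻¹ ≤ 2 ^ d := by
    rw [inv_le_comm₀ (by positivity) (by positivity), ← inv_pow]
    exact pow_le_pow_left₀ (by positivity) (by linarith) d
  calc ENNReal.ofReal ((r ^ d)⁻¹) ≤ ENNReal.ofReal (2 ^ d) := ENNReal.ofReal_le_ofReal h3
    _ = 2 ^ d := by rw [ENNReal.ofReal_pow (by norm_num)]; norm_num

/-- the pointwise inequality along segments -/
theorem seg_ineq {f : E d → ℝ} (hf : ContDiffOn ℝ 1 f P.Om) {D : ℝ} 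
    (hD : ∀ x ∈ P.Om, ∀ y ∈ P.Om, ‖x - y‖ ≤ D) {x y : E d} (hx : x ∈ P.Om) (hy : y ∈ P.Om) :
    ENNReal.ofReal ((f x - f y) ^ 2) ≤ ENNReal.ofReal (D ^ 2) *
      ∫⁻ t in Ioo (0 : ℝ) 1, P.Om.indicator (fun z => ENNReal.ofReal (‖gradient f z‖ ^ 2))
        ((1 - t) • y + t • x) := by
  have hD0 : 0 ≤ D := (norm_nonneg _).trans (hD x hx y hy)
  have hmem : ∀ t ∈ Icc (0 : ℝ) 1, (1 - t) • y + t • x ∈ P.Om := by
    intro t ht
    exact P.convex_Om hy hx (by linarith [ht.2]) ht.1 (by ring)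
  have hγ : ∀ t ∈ Icc (0 : ℝ) 1, HasDerivAt (fun t : ℝ => f ((1 - t) • y + t • x))
      (⟪gradient f ((1 - t) • y + t • x), x - y⟫) t := by
    intro t ht
    have h1 : HasDerivAt (fun t : ℝ => (1 - t) • y + t • x) (x - y) t := by
      have h2 : HasDerivAt (fun t : ℝ => (1 - t) • y + t • x) ((-1 : ℝ) • y + (1 : ℝ) • x) t :=
        (((hasDerivAt_id t).const_sub 1).smul_const y).add ((hasDerivAt_id t).smul_const x)
      convert h2 using 1
      module
    have h3 : DifferentiableAt ℝ f ((1 - t) • y + t • x) :=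
      (hf.differentiableOn (by norm_num)).differentiableAt (P.isOpen_Om.mem_nhds (hmem t ht))
    have h4 := h3.hasFDerivAt.comp_hasDerivAt t h1
    rwa [← inner_gradient_left] at h4
  have hcont : ContinuousOn (fun t : ℝ => gradient f ((1 - t) • y + t • x)) (Icc 0 1) :=
    (continuousOn_grad P.isOpen_Om hf).comp (by fun_prop) hmem
  have hcg : ContinuousOn (fun t : ℝ => ‖gradient f ((1 - t) • y + t • x)‖ ^ 2) (Icc 0 1) :=
    hcont.norm.pow 2
  have hint2 : IntervalIntegrable (fun t : ℝ => ‖gradient f ((1 - t) • y + t • x)‖ ^ 2) volume 0 1 :=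
    ContinuousOn.intervalIntegrable (by rwa [uIcc_of_le zero_le_one])
  have hint1 : IntervalIntegrable (fun t : ℝ => ‖gradient f ((1 - t) • y + t • x)‖) volume 0 1 :=
    ContinuousOn.intervalIntegrable (by rw [uIcc_of_le zero_le_one]; exact hcont.norm)
  have hint : IntervalIntegrable (fun t : ℝ => ⟪gradient f ((1 - t) • y + t • x), x - y⟫)
      volume 0 1 := by
    refine ContinuousOn.intervalIntegrable ?_
    rw [uIcc_of_le zero_le_one]
    exact hcont.inner continuousOn_const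
  have hftc : f x - f y = ∫ t in (0 : ℝ)..1, ⟪gradient f ((1 - t) • y + t • x), x - y⟫ := by
    have h1 := intervalIntegral.integral_eq_sub_of_hasDerivAt (a := (0 : ℝ)) (b := 1)
      (fun t ht => hγ t (by rwa [uIcc_of_le zero_le_one] at ht)) hint
    rw [h1]
    simp
  have hb : |f x - f y| ≤ D * ∫ t in (0 : ℝ)..1, ‖gradient f ((1 - t) • y + t • x)‖ := by
    rw [hftc, ← intervalIntegral.integral_const_mul]
    refine (intervalIntegral.abs_integral_le_integral_abs zero_le_one).trans ?_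
    refine intervalIntegral.integral_mono_on zero_le_one hint.abs (hint1.const_mul D) fun t ht => ?_
    refine (abs_real_inner_le_norm _ _).trans ?_
    rw [mul_comm D]
    exact mul_le_mul_of_nonneg_left (hD x hx y hy) (norm_nonneg _)
  have hcs : (∫ t in (0 : ℝ)..1, ‖gradient f ((1 - t) • y + t • x)‖) ^ 2 ≤
      ∫ t in (0 : ℝ)..1, ‖gradient f ((1 - t) • y + t • x)‖ ^ 2 := by
    set A := ∫ t in (0 : ℝ)..1, ‖gradient f ((1 - t) • y + t • x)‖ with hA
    have h1 : 0 ≤ ∫ t in (0 : ℝ)..1, (‖gradient f ((1 - t) • y + t • x)‖ - A) ^ 2 :=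
      intervalIntegral.integral_nonneg zero_le_one fun t _ => sq_nonneg _
    have h2 : ∫ t in (0 : ℝ)..1, (‖gradient f ((1 - t) • y + t • x)‖ - A) ^ 2 =
        (∫ t in (0 : ℝ)..1, ‖gradient f ((1 - t) • y + t • x)‖ ^ 2) - 2 * A * A + A ^ 2 := by
      have h3 : (fun t : ℝ => (‖gradient f ((1 - t) • y + t • x)‖ - A) ^ 2) =
          fun t : ℝ => ‖gradient f ((1 - t) • y + t • x)‖ ^ 2 -
            2 * A * ‖gradient f ((1 - t) • y + t • x)‖ + A ^ 2 := by
        funext t; ring
      rw [h3, intervalIntegral.integral_add (hint2.sub (hint1.const_mul _))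
        intervalIntegrable_const, intervalIntegral.integral_sub hint2 (hint1.const_mul _),
        intervalIntegral.integral_const_mul, intervalIntegral.integral_const, ← hA]
      simp
    rw [h2] at h1
    nlinarith
  have hfin : (f x - f y) ^ 2 ≤ D ^ 2 * ∫ t in (0 : ℝ)..1, ‖gradient f ((1 - t) • y + t • x)‖ ^ 2 := by
    have h0 : 0 ≤ ∫ t in (0 : ℝ)..1, ‖gradient f ((1 - t) • y + t • x)‖ :=
      intervalIntegral.integral_nonneg zero_le_one fun t _ => norm_nonneg _
    calc (f x - f y) ^ 2 = |f x - f y| ^ 2 := (sq_abs _).symm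
      _ ≤ (D * ∫ t in (0 : ℝ)..1, ‖gradient f ((1 - t) • y + t • x)‖) ^ 2 :=
          pow_le_pow_left₀ (abs_nonneg _) hb 2
      _ = D ^ 2 * (∫ t in (0 : ℝ)..1, ‖gradient f ((1 - t) • y + t • x)‖) ^ 2 := by ring
      _ ≤ _ := mul_le_mul_of_nonneg_left hcs (by positivity)
  refine (ENNReal.ofReal_le_ofReal hfin).trans ?_
  rw [ENNReal.ofReal_mul (by positivity)]
  refine mul_le_mul_right ?_ _
  rw [intervalIntegral.integral_of_le zero_le_one, integral_Ioc_eq_integral_Ioo,
    ofReal_integral_eq_lintegral_ofReal]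
  · refine le_of_eq (setLIntegral_congr_fun measurableSet_Ioo fun t ht => ?_)
    rw [indicator_of_mem (hmem t ⟨ht.1.le, ht.2.le⟩)]
  · have := hint2.1
    exact this.mono_set Ioo_subset_Ioc_self
  · exact ae_of_all _ fun t => by positivity

/-- **PO.** Poincare inequality on the convex domain -/
theorem poincare : ∃ C > 0, ∀ f : E d → ℝ, ContDiffOn ℝ 1 f P.Om →
    IntegrableOn (fun x => f x ^ 2) P.Om → IntegrableOn (fun x => ‖gradient f x‖ ^ 2) P.Om →
    ∫ x in P.Om, f x = 0 → ∫ x in P.Om, f x ^ 2 ≤ C * ∫ x in P.Om, ‖gradient f x‖ ^ 2 := by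
  obtain ⟨D, hD⟩ := Metric.isBounded_iff.mp P.isBounded_Om
  have hD' : ∀ x ∈ P.Om, ∀ y ∈ P.Om, ‖x - y‖ ≤ D := fun x hx y hy => by
    rw [← dist_eq_norm]; exact hD hx hy
  refine ⟨D ^ 2 * 2 ^ d + 1, by positivity, fun f hf hf2 hg2 h0 => ?_⟩
  have hvol := P.vol_pos
  set Ω := P.Om with hΩ
  have hΩm : MeasurableSet Ω := P.measurableSet_Om
  set g : E d → ℝ≥0∞ := Ω.indicator (fun z => ENNReal.ofReal (‖gradient f z‖ ^ 2)) with hg
  have hgm : Measurable g :=
    (((measurable_grad f).norm.pow_const 2).ennreal_ofReal).indicator hΩm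
  have hgI : ∫⁻ z, g z = ENNReal.ofReal (∫ x in Ω, ‖gradient f x‖ ^ 2) := by
    rw [hg, lintegral_indicator hΩm, ofReal_integral_eq_lintegral_ofReal hg2
      (ae_of_all _ fun x => by positivity)]
  -- integrability of f
  have hfm : AEStronglyMeasurable f (volume.restrict Ω) :=
    hf.continuousOn.aestronglyMeasurable hΩm
  have hfi : IntegrableOn f Ω := by
    have h1 : IntegrableOn (fun x => 1 + f x ^ 2) Ω := by
      refine Integrable.add ?_ hf2
      exact integrable_const _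
    refine h1.mono' hfm (ae_of_all _ fun x => ?_)
    rw [Real.norm_eq_abs]
    nlinarith [sq_nonneg (|f x| - 1), sq_abs (f x)]
  -- lower bound
  have hlow : ∫⁻ x in Ω, ∫⁻ y in Ω, ENNReal.ofReal ((f x - f y) ^ 2) =
      ENNReal.ofReal (2 * P.vol * ∫ x in Ω, f x ^ 2) := by
    have h1 : ∀ x, ∫⁻ y in Ω, ENNReal.ofReal ((f x - f y) ^ 2) =
        ENNReal.ofReal (P.vol * f x ^ 2 + ∫ y in Ω, f y ^ 2) := by
      intro x
      have h2 : (fun y => (f x - f y) ^ 2) = fun y => f x ^ 2 - 2 * f x * f y + f y ^ 2 := by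
        funext y; ring
      have h3 : IntegrableOn (fun y => (f x - f y) ^ 2) Ω := by
        rw [h2]
        exact ((integrable_const _).sub (hfi.const_mul _)).add hf2
      rw [← ofReal_integral_eq_lintegral_ofReal h3 (ae_of_all _ fun y => by positivity)]
      congr 1
      have e1 : IntegrableOn (fun y => f x ^ 2 - 2 * f x * f y) Ω :=
        (integrable_const _).sub (hfi.const_mul _)
      rw [h2, integral_add e1 hf2,
        integral_sub (integrable_const _) (hfi.const_mul _), integral_const_mul, h0,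
        setIntegral_const]
      simp [PD.vol, Measure.real, ← hΩ]
    simp only [h1]
    have h4 : IntegrableOn (fun x => P.vol * f x ^ 2 + ∫ y in Ω, f y ^ 2) Ω :=
      (hf2.const_mul _).add (integrable_const _)
    rw [← ofReal_integral_eq_lintegral_ofReal h4 (ae_of_all _ fun x => by
      have : 0 ≤ ∫ y in Ω, f y ^ 2 := integral_nonneg fun y => sq_nonneg _
      have := P.vol_pos
      positivity)]
    congr 1
    rw [integral_add (hf2.const_mul _) (integrable_const _), integral_const_mul, setIntegral_const]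
    simp only [PD.vol, Measure.real, smul_eq_mul]
    ring
  -- upper bound
  have hup : ∫⁻ x in Ω, ∫⁻ y in Ω, ENNReal.ofReal ((f x - f y) ^ 2) ≤
      ENNReal.ofReal (D ^ 2) * (volume Ω * (2 ^ d * ∫⁻ z, g z) * 2) := by
    have h1 : ∫⁻ x in Ω, ∫⁻ y in Ω, ENNReal.ofReal ((f x - f y) ^ 2) ≤
        ∫⁻ x in Ω, ∫⁻ y in Ω, ENNReal.ofReal (D ^ 2) *
          ∫⁻ t in Ioo (0 : ℝ) 1, g ((1 - t) • y + t • x) := by
      refine setLIntegral_mono' hΩm fun x hx => setLIntegral_mono' hΩm fun y hy => ?_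
      exact seg_ineq P hf hD' hx hy
    refine h1.trans ?_
    have hmeas : Measurable fun p : (E d × E d) × ℝ => g ((1 - p.2) • p.1.2 + p.2 • p.1.1) :=
      hgm.comp (by fun_prop)
    have hmt : ∀ x, Measurable fun p : E d × ℝ => g ((1 - p.2) • p.1 + p.2 • x) := fun x =>
      hgm.comp (by fun_prop)
    -- split the parameter interval
    have hsplit : ∀ x y : E d, ∫⁻ t in Ioo (0 : ℝ) 1, g ((1 - t) • y + t • x) ≤
        (∫⁻ t in Ioc (0 : ℝ) (1 / 2), g ((1 - t) • y + t • x)) +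
          ∫⁻ t in Ioo (1 / 2 : ℝ) 1, g ((1 - t) • y + t • x) := by
      intro x y
      refine le_trans ?_ (lintegral_union_le _ _ _)
      exact lintegral_mono_set fun t ht => by
        rcases le_or_gt t (1 / 2) with h | h
        · exact Or.inl ⟨ht.1, h⟩
        · exact Or.inr ⟨h, ht.2⟩
    have hA : ∫⁻ x in Ω, ∫⁻ y in Ω, ∫⁻ t in Ioc (0 : ℝ) (1 / 2), g ((1 - t) • y + t • x) ≤
        volume Ω * (2 ^ d * ∫⁻ z, g z) := by
      have h2 : ∀ x, ∫⁻ y in Ω, ∫⁻ t in Ioc (0 : ℝ) (1 / 2), g ((1 - t) • y + t • x) ≤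
          2 ^ d * ∫⁻ z, g z := by
        intro x
        rw [lintegral_lintegral_swap (hmt x).aemeasurable]
        calc ∫⁻ t in Ioc (0 : ℝ) (1 / 2), ∫⁻ y in Ω, g ((1 - t) • y + t • x)
            ≤ ∫⁻ _t in Ioc (0 : ℝ) (1 / 2), 2 ^ d * ∫⁻ z, g z := by
              refine setLIntegral_mono' measurableSet_Ioc fun t ht => ?_
              refine (setLIntegral_le_lintegral _ _).trans ?_
              exact lint_dil g hgm (by linarith [ht.2]) (by linarith [ht.1]) _
          _ = 2 ^ d * (∫⁻ z, g z) * volume (Ioc (0 : ℝ) (1 / 2)) := setLIntegral_const _ _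
          _ ≤ 2 ^ d * (∫⁻ z, g z) * 1 := by
              refine mul_le_mul_right ?_ _
              rw [Real.volume_Ioc]
              norm_num
          _ = _ := mul_one _
      calc ∫⁻ x in Ω, ∫⁻ y in Ω, ∫⁻ t in Ioc (0 : ℝ) (1 / 2), g ((1 - t) • y + t • x)
          ≤ ∫⁻ _x in Ω, 2 ^ d * ∫⁻ z, g z := lintegral_mono fun x => h2 x
        _ = 2 ^ d * (∫⁻ z, g z) * volume Ω := setLIntegral_const _ _
        _ = _ := by ring
    have hB : ∫⁻ x in Ω, ∫⁻ y in Ω, ∫⁻ t in Ioo (1 / 2 : ℝ) 1, g ((1 - t) • y + t • x) ≤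
        volume Ω * (2 ^ d * ∫⁻ z, g z) := by
      rw [lintegral_lintegral_swap]
      · have h2 : ∀ y, ∫⁻ x in Ω, ∫⁻ t in Ioo (1 / 2 : ℝ) 1, g ((1 - t) • y + t • x) ≤
            2 ^ d * ∫⁻ z, g z := by
          intro y
          have hmt' : Measurable fun p : E d × ℝ => g ((1 - p.2) • y + p.2 • p.1) :=
            hgm.comp (by fun_prop)
          rw [lintegral_lintegral_swap hmt'.aemeasurable]
          calc ∫⁻ t in Ioo (1 / 2 : ℝ) 1, ∫⁻ x in Ω, g ((1 - t) • y + t • x)
              ≤ ∫⁻ _t in Ioo (1 / 2 : ℝ) 1, 2 ^ d * ∫⁻ z, g z := by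
                refine setLIntegral_mono' measurableSet_Ioo fun t ht => ?_
                refine (setLIntegral_le_lintegral _ _).trans ?_
                have h3 := lint_dil g hgm (r := t) ht.1.le ht.2.le ((1 - t) • y)
                refine le_trans (le_of_eq ?_) h3
                refine lintegral_congr fun x => ?_
                rw [add_comm]
            _ = 2 ^ d * (∫⁻ z, g z) * volume (Ioo (1 / 2 : ℝ) 1) := setLIntegral_const _ _
            _ ≤ 2 ^ d * (∫⁻ z, g z) * 1 := by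
                refine mul_le_mul_right ?_ _
                rw [Real.volume_Ioo]
                norm_num
            _ = _ := mul_one _
        calc ∫⁻ y in Ω, ∫⁻ x in Ω, ∫⁻ t in Ioo (1 / 2 : ℝ) 1, g ((1 - t) • y + t • x)
            ≤ ∫⁻ _y in Ω, 2 ^ d * ∫⁻ z, g z := lintegral_mono fun y => h2 y
          _ = 2 ^ d * (∫⁻ z, g z) * volume Ω := setLIntegral_const _ _
          _ = _ := by ring
      · exact (Measurable.lintegral_prod_right' hmeas).aemeasurable
    have h3 : ∀ x, Measurable fun y => ∫⁻ t in Ioo (0 : ℝ) 1, g ((1 - t) • y + t • x) := fun x =>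
      Measurable.lintegral_prod_right' (hmt x)
    calc ∫⁻ x in Ω, ∫⁻ y in Ω, ENNReal.ofReal (D ^ 2) *
          ∫⁻ t in Ioo (0 : ℝ) 1, g ((1 - t) • y + t • x)
        ≤ ∫⁻ x in Ω, ∫⁻ y in Ω, ENNReal.ofReal (D ^ 2) *
          ((∫⁻ t in Ioc (0 : ℝ) (1 / 2), g ((1 - t) • y + t • x)) +
            ∫⁻ t in Ioo (1 / 2 : ℝ) 1, g ((1 - t) • y + t • x)) :=
          lintegral_mono fun x => lintegral_mono fun y => mul_le_mul_right (hsplit x y) _
      _ = ENNReal.ofReal (D ^ 2) * ((∫⁻ x in Ω, ∫⁻ y in Ω,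
            ∫⁻ t in Ioc (0 : ℝ) (1 / 2), g ((1 - t) • y + t • x)) +
            ∫⁻ x in Ω, ∫⁻ y in Ω, ∫⁻ t in Ioo (1 / 2 : ℝ) 1, g ((1 - t) • y + t • x)) := by
          have hm1 : ∀ x, Measurable fun y => ∫⁻ t in Ioc (0 : ℝ) (1 / 2), g ((1 - t) • y + t • x) :=
            fun x => Measurable.lintegral_prod_right' (hmt x)
          have hm2 : Measurable fun p : E d × E d =>
              ∫⁻ t in Ioc (0 : ℝ) (1 / 2), g ((1 - t) • p.2 + t • p.1) :=
            Measurable.lintegral_prod_right' hmeas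
          have hm3 : Measurable fun x => ∫⁻ y in Ω,
              ∫⁻ t in Ioc (0 : ℝ) (1 / 2), g ((1 - t) • y + t • x) :=
            Measurable.lintegral_prod_right' hm2
          rw [← lintegral_add_left hm3, ← lintegral_const_mul' _ _ ENNReal.ofReal_ne_top]
          refine lintegral_congr fun x => ?_
          rw [← lintegral_add_left (hm1 x), ← lintegral_const_mul' _ _ ENNReal.ofReal_ne_top]
      _ ≤ ENNReal.ofReal (D ^ 2) * (volume Ω * (2 ^ d * ∫⁻ z, g z) +
            volume Ω * (2 ^ d * ∫⁻ z, g z)) := mul_le_mul_right (add_le_add hA hB) _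
      _ = _ := by rw [mul_two]
  -- conclusion
  rw [hlow, hgI] at hup
  have hvol' : volume Ω = ENNReal.ofReal P.vol := by
    rw [PD.vol, ENNReal.ofReal_toReal P.volume_lt_top.ne]
  have hGI : 0 ≤ ∫ x in Ω, ‖gradient f x‖ ^ 2 := integral_nonneg fun x => by positivity
  have h2d : (2 : ℝ≥0∞) ^ d = ENNReal.ofReal (2 ^ d) := by
    rw [ENNReal.ofReal_pow (by norm_num)]; norm_num
  have h22 : ∀ a : ℝ, 0 ≤ a → ENNReal.ofReal a * 2 = ENNReal.ofReal (a * 2) := by
    intro a ha
    rw [ENNReal.ofReal_mul ha, ENNReal.ofReal_ofNat]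
  rw [hvol', h2d, ← ENNReal.ofReal_mul (by positivity), ← ENNReal.ofReal_mul hvol.le,
    h22 _ (by positivity), ← ENNReal.ofReal_mul (by positivity),
    ENNReal.ofReal_le_ofReal_iff (by positivity)] at hup
  have h5 : P.vol * ∫ x in Ω, f x ^ 2 ≤ P.vol * (D ^ 2 * 2 ^ d * ∫ x in Ω, ‖gradient f x‖ ^ 2) := by
    nlinarith
  have h6 := le_of_mul_le_mul_left h5 hvol
  nlinarith

end

end Pool.Agent.Lib_helper6.Robin
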