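import Pool.Agent.Lib_helper13.Robin.Geo

/-! Block WL of the Robin project (MP_88fc3a_an): weak limits. -/

namespace Pool.Agent.Lib_helper6.Robin

open MeasureTheory Set Metric Filter Topology
open scoped RealInnerProductSpace ContDiff

noncomputable section

/-- **WL.** bounded in `L²` + a.e. convergence implies weak convergence -/
theorem weak_lim {α F : Type*} [MeasurableSpace α] {μ : Measure α} [IsFiniteMeasure μ]
    [NormedAddCommGroup F] [InnerProductSpace ℝ F] (f : ℕ → α → F) (f' g : α → F) (M : ℝ)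
    (hm : ∀ n, AEStronglyMeasurable (f n) μ) (hi : ∀ n, Integrable (fun x => ‖f n x‖ ^ 2) μ)
    (hb : ∀ n, ∫ x, ‖f n x‖ ^ 2 ∂μ ≤ M)
    (hg : AEStronglyMeasurable g μ) (hg2 : Integrable (fun x => ‖g x‖ ^ 2) μ)
    (hlim : ∀ᵐ x ∂μ, Tendsto (fun n => f n x) atTop (𝓝 (f' x))) :
    Integrable (fun x => ‖f' x‖ ^ 2) μ ∧
      Tendsto (fun n => ∫ x, ⟪f n x, g x⟫ ∂μ) atTop (𝓝 (∫ x, ⟪f' x, g x⟫ ∂μ)) := by
  have hm' : AEStronglyMeasurable f' μ := aestronglyMeasurable_of_tendsto_ae atTop hm hlim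
  -- Fatou
  have hf' : Integrable (fun x => ‖f' x‖ ^ 2) μ := by
    refine ⟨(hm'.norm.pow 2), ?_⟩
    rw [hasFiniteIntegral_iff_enorm]
    have h1 : ∫⁻ x, ‖‖f' x‖ ^ 2‖ₑ ∂μ ≤ ∫⁻ x, liminf (fun n => ‖‖f n x‖ ^ 2‖ₑ) atTop ∂μ := by
      refine lintegral_mono_ae ?_
      filter_upwards [hlim] with x hx
      have h2 : Tendsto (fun n => ‖‖f n x‖ ^ 2‖ₑ) atTop (𝓝 ‖‖f' x‖ ^ 2‖ₑ) :=
        ((hx.norm).pow 2).enorm
      rw [h2.liminf_eq]
    have h3 : ∫⁻ x, liminf (fun n => ‖‖f n x‖ ^ 2‖ₑ) atTop ∂μ ≤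
        liminf (fun n => ∫⁻ x, ‖‖f n x‖ ^ 2‖ₑ ∂μ) atTop :=
      lintegral_liminf_le' fun n => ((hm n).norm.pow 2).enorm
    have h4 : liminf (fun n => ∫⁻ x, ‖‖f n x‖ ^ 2‖ₑ ∂μ) atTop ≤ ENNReal.ofReal M := by
      refine liminf_le_of_le ?_ ?_
      · isBoundedDefault
      · intro b hb'
        obtain ⟨n, hn⟩ := hb'.exists
        refine hn.trans ?_
        have h5 : ∫⁻ x, ‖‖f n x‖ ^ 2‖ₑ ∂μ = ENNReal.ofReal (∫ x, ‖f n x‖ ^ 2 ∂μ) := by
          rw [ofReal_integral_eq_lintegral_ofReal (hi n) (ae_of_all _ fun x => by positivity)]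
          refine lintegral_congr fun x => ?_
          rw [Real.enorm_of_nonneg (by positivity)]
        rw [h5]
        exact ENNReal.ofReal_le_ofReal (hb n)
    exact ((h1.trans h3).trans h4).trans_lt ENNReal.ofReal_lt_top
  refine ⟨hf', ?_⟩
  -- the differences
  have hI : ∀ (u : α → F), AEStronglyMeasurable u μ → Integrable (fun x => ‖u x‖ ^ 2) μ →
      Integrable (fun x => ⟪u x, g x⟫) μ := by
    intro u hu hu2
    refine (hu2.add hg2).mono' (hu.inner hg) (ae_of_all _ fun x => ?_)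
    have h1 := abs_real_inner_le_norm (u x) (g x)
    simp only [Pi.add_apply]
    rw [Real.norm_eq_abs]
    nlinarith [sq_nonneg (‖u x‖ - ‖g x‖), sq_nonneg (‖u x‖), sq_nonneg ‖g x‖]
  set M' : ℝ := 2 * M + 2 * ∫ x, ‖f' x‖ ^ 2 ∂μ with hM'
  have hd2 : ∀ n, Integrable (fun x => ‖f n x - f' x‖ ^ 2) μ := by
    intro n
    refine (((hi n).const_mul 2).add (hf'.const_mul 2)).mono' (((hm n).sub hm').norm.pow 2)
      (ae_of_all _ fun x => ?_)
    simp only [Pi.add_apply]
    rw [Real.norm_of_nonneg (by positivity)]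
    have h1 := norm_sub_le (f n x) (f' x)
    nlinarith [norm_nonneg (f n x - f' x), norm_nonneg (f n x), norm_nonneg (f' x),
      sq_nonneg (‖f n x‖ - ‖f' x‖)]
  have hdb : ∀ n, ∫ x, ‖f n x - f' x‖ ^ 2 ∂μ ≤ M' := by
    intro n
    have h1 : ∫ x, ‖f n x - f' x‖ ^ 2 ∂μ ≤ ∫ x, (2 * ‖f n x‖ ^ 2 + 2 * ‖f' x‖ ^ 2) ∂μ := by
      refine integral_mono (hd2 n) (((hi n).const_mul 2).add (hf'.const_mul 2)) fun x => ?_
      have h1 := norm_sub_le (f n x) (f' x)
      simp only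
      nlinarith [norm_nonneg (f n x - f' x), norm_nonneg (f n x), norm_nonneg (f' x),
        sq_nonneg (‖f n x‖ - ‖f' x‖)]
    rw [integral_add ((hi n).const_mul 2) (hf'.const_mul 2), integral_const_mul,
      integral_const_mul] at h1
    have := hb n
    linarith
  have hM0 : 0 ≤ M' := (integral_nonneg fun x => by positivity).trans (hdb 0)
  -- the truncated part
  have hK : ∀ K : ℝ, 0 < K → Tendsto (fun n => ∫ x, min (‖f n x - f' x‖ * ‖g x‖) (K * ‖g x‖ ^ 2) ∂μ)
      atTop (𝓝 0) := by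
    intro K hK
    have h0 : (0 : ℝ) = ∫ x, (0 : ℝ) ∂μ := by simp
    rw [h0]
    refine tendsto_integral_of_dominated_convergence (fun x => K * ‖g x‖ ^ 2)
      (fun n => ?_) (hg2.const_mul K) (fun n => ae_of_all _ fun x => ?_) ?_
    · exact (((hm n).sub hm').norm.mul hg.norm).inf ((hg.norm.pow 2).const_mul K)
    · rw [Real.norm_of_nonneg (le_min (by positivity) (by positivity))]
      exact min_le_right _ _
    · filter_upwards [hlim] with x hx
      have h1 : Tendsto (fun n => ‖f n x - f' x‖ * ‖g x‖) atTop (𝓝 0) := by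
        have h2 : Tendsto (fun n => f n x - f' x) atTop (𝓝 0) := by
          simpa using hx.sub_const (f' x)
        simpa using (h2.norm).mul_const ‖g x‖
      have h3 : Tendsto (fun n => min (‖f n x - f' x‖ * ‖g x‖) (K * ‖g x‖ ^ 2)) atTop
          (𝓝 (min 0 (K * ‖g x‖ ^ 2))) := h1.min tendsto_const_nhds
      rwa [min_eq_left (by positivity)] at h3
  have hint : ∀ K : ℝ, 0 < K → ∀ n, |∫ x, ⟪f n x, g x⟫ ∂μ - ∫ x, ⟪f' x, g x⟫ ∂μ| ≤
      ∫ x, min (‖f n x - f' x‖ * ‖g x‖) (K * ‖g x‖ ^ 2) ∂μ + M' / K := by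
    intro K hK n
    have hmin : Integrable (fun x => min (‖f n x - f' x‖ * ‖g x‖) (K * ‖g x‖ ^ 2)) μ := by
      refine (hg2.const_mul K).mono'
        ((((hm n).sub hm').norm.mul hg.norm).inf ((hg.norm.pow 2).const_mul K))
        (ae_of_all _ fun x => ?_)
      rw [Real.norm_of_nonneg (le_min (by positivity) (by positivity))]
      exact min_le_right _ _
    rw [← integral_sub (hI _ (hm n) (hi n)) (hI _ hm' hf')]
    calc |∫ x, (⟪f n x, g x⟫ - ⟪f' x, g x⟫) ∂μ|
        ≤ ∫ x, |⟪f n x, g x⟫ - ⟪f' x, g x⟫| ∂μ := abs_integral_le_integral_abs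
      _ ≤ ∫ x, (min (‖f n x - f' x‖ * ‖g x‖) (K * ‖g x‖ ^ 2) + K⁻¹ * ‖f n x - f' x‖ ^ 2) ∂μ := by
          refine integral_mono ((hI _ (hm n) (hi n)).sub (hI _ hm' hf')).abs
            (hmin.add ((hd2 n).const_mul _)) fun x => ?_
          simp only
          rw [← inner_sub_left]
          refine (abs_real_inner_le_norm _ _).trans ?_
          rcases le_total ‖f n x - f' x‖ (K * ‖g x‖) with h1 | h1
          · have h2 : ‖f n x - f' x‖ * ‖g x‖ ≤ K * ‖g x‖ ^ 2 := by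
              have := mul_le_mul_of_nonneg_right h1 (norm_nonneg (g x))
              nlinarith
            rw [min_eq_left h2]
            have : 0 ≤ K⁻¹ * ‖f n x - f' x‖ ^ 2 := by positivity
            linarith
          · have h2 : ‖g x‖ ≤ K⁻¹ * ‖f n x - f' x‖ := by
              rw [inv_mul_eq_div, le_div_iff₀ hK]
              linarith
            have h3 : ‖f n x - f' x‖ * ‖g x‖ ≤ K⁻¹ * ‖f n x - f' x‖ ^ 2 := by
              have := mul_le_mul_of_nonneg_left h2 (norm_nonneg (f n x - f' x))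
              nlinarith
            have h4 : 0 ≤ min (‖f n x - f' x‖ * ‖g x‖) (K * ‖g x‖ ^ 2) :=
              le_min (by positivity) (by positivity)
            linarith
      _ = ∫ x, min (‖f n x - f' x‖ * ‖g x‖) (K * ‖g x‖ ^ 2) ∂μ +
            K⁻¹ * ∫ x, ‖f n x - f' x‖ ^ 2 ∂μ := by
          rw [integral_add hmin ((hd2 n).const_mul _), integral_const_mul]
      _ ≤ _ := by
          have := mul_le_mul_of_nonneg_left (hdb n) (inv_pos.mpr hK).le
          rw [inv_mul_eq_div K M'] at this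
          linarith
  rw [Metric.tendsto_atTop]
  intro ε hε
  set K : ℝ := 2 * (M' + 1) / ε with hKdef
  have hKpos : 0 < K := by positivity
  obtain ⟨N, hN⟩ := (Metric.tendsto_atTop.mp (hK K hKpos)) (ε / 2) (by positivity)
  refine ⟨N, fun n hn => ?_⟩
  have h1 := hN n hn
  rw [Real.dist_eq, sub_zero] at h1
  have h2 := hint K hKpos n
  rw [Real.dist_eq]
  have h3 : M' / K < ε / 2 := by
    rw [hKdef, div_div_eq_mul_div, div_lt_iff₀ (by positivity)]
    nlinarith
  have h4 := (abs_lt.mp h1).2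
  linarith

end

end Pool.Agent.Lib_helper6.Robin
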