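import Pool.Agent.Lib_helper13.Robin.Geo

/-! Block XF of the Robin project (MP_88fc3a_an): cosine series. -/

namespace Pool.Agent.Lib_helper6.Robin

open MeasureTheory Set Metric Filter Topology
open scoped RealInnerProductSpace ContDiff

noncomputable section

/-- **XF.** pointwise convergence of absolutely convergent cosine series -/
theorem cos_series {om : ℝ} (h : 0 < om) (f : ℝ → ℝ) (L : ℝ)
    (hL : ∀ x ∈ Ioo 0 om, ∀ y ∈ Ioo 0 om, |f x - f y| ≤ L * |x - y|)
    (hs : Summable fun k : ℕ => |∫ θ in (0 : ℝ)..om, f θ * Real.cos (k * (Real.pi / om) * θ)|) :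
    ∀ x ∈ Ioo 0 om, f x = om⁻¹ * (∫ θ in (0 : ℝ)..om, f θ) +
      2 * om⁻¹ * ∑' k : ℕ, (∫ θ in (0 : ℝ)..om, f θ *
        Real.cos ((k + 1 : ℕ) * (Real.pi / om) * θ)) *
        Real.cos ((k + 1 : ℕ) * (Real.pi / om) * x) := by
  classical
  -- Lipschitz extension
  have hLip : LipschitzOnWith (Real.toNNReal L) f (Ioo 0 om) := by
    refine LipschitzOnWith.of_dist_le_mul fun x hx y hy => ?_
    rw [Real.dist_eq, Real.dist_eq]
    refine (hL x hx y hy).trans (mul_le_mul_of_nonneg_right (Real.le_coe_toNNReal L) (abs_nonneg _))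
  obtain ⟨g, hg, hfg⟩ := hLip.extend_real
  have hgc : Continuous g := hg.continuous
  have hT : Fact (0 < 2 * om) := ⟨by positivity⟩
  -- the even periodic function
  set Gf : C(AddCircle (2 * om), ℂ) := ⟨fun t => (g ‖t‖ : ℂ),
    Complex.continuous_ofReal.comp (hgc.comp continuous_norm)⟩ with hGf
  have hnorm : ∀ x ∈ Icc (-om) om, ‖(x : AddCircle (2 * om))‖ = |x| := by
    intro x hx
    apply (AddCircle.norm_coe_eq_abs_iff (2 * om) (by positivity : (2 * om) ≠ 0)).mpr
    rw [abs_of_pos (by positivity : (0 : ℝ) < 2 * om)]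
    rw [abs_le]
    constructor <;> linarith [hx.1, hx.2]
  -- the coefficients
  set I : ℕ → ℝ := fun k => ∫ θ in (0 : ℝ)..om, f θ * Real.cos (k * (Real.pi / om) * θ) with hI
  have hIg : ∀ k : ℕ, I k = ∫ θ in (0 : ℝ)..om, g θ * Real.cos (k * (Real.pi / om) * θ) := by
    intro k
    rw [hI]
    simp only
    rw [intervalIntegral.integral_of_le h.le, intervalIntegral.integral_of_le h.le,
      integral_Ioc_eq_integral_Ioo, integral_Ioc_eq_integral_Ioo]
    refine setIntegral_congr_fun measurableSet_Ioo fun x hx => ?_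
    rw [hfg hx]
  have hcoef : ∀ n : ℤ, fourierCoeff Gf n = ((om⁻¹ * I n.natAbs : ℝ) : ℂ) := by
    intro n
    rw [fourierCoeff_eq_intervalIntegral Gf n (-om)]
    have e1 : -om + 2 * om = om := by ring
    rw [e1]
    have hcont : Continuous fun x : ℝ => (@fourier (2 * om) (-n) (x : AddCircle (2 * om))) •
        Gf (x : AddCircle (2 * om)) := by
      have h1 : Continuous fun x : ℝ => (x : AddCircle (2 * om)) := AddCircle.continuous_mk' _
      exact ((fourier (-n)).continuous.comp h1).smul (Gf.continuous.comp h1)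
    rw [← intervalIntegral.integral_add_adjacent_intervals (b := 0)
      (hcont.intervalIntegrable _ _) (hcont.intervalIntegrable _ _)]
    have hval : ∀ x ∈ Icc (-om) om, (@fourier (2 * om) (-n) (x : AddCircle (2 * om))) •
        Gf (x : AddCircle (2 * om)) = Complex.exp (-(Real.pi / om * n * x : ℝ) * Complex.I) *
          (g |x| : ℂ) := by
      intro x hx
      rw [fourier_coe_apply, smul_eq_mul]
      congr 1
      · congr 1
        push_cast
        field_simp
      · show ((g ‖(x : AddCircle (2 * om))‖ : ℝ) : ℂ) = _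
        rw [hnorm x hx]
    have h1 : ∫ x in (-om)..0, (@fourier (2 * om) (-n) (x : AddCircle (2 * om))) •
        Gf (x : AddCircle (2 * om)) =
        ∫ x in (0 : ℝ)..om, Complex.exp ((Real.pi / om * n * x : ℝ) * Complex.I) * (g x : ℂ) := by
      have h2 := intervalIntegral.integral_comp_neg (a := (0 : ℝ)) (b := om)
        (fun x : ℝ => (@fourier (2 * om) (-n) (x : AddCircle (2 * om))) •
        Gf (x : AddCircle (2 * om)))
      rw [neg_zero] at h2
      rw [← h2]
      refine intervalIntegral.integral_congr fun x hx => ?_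
      rw [uIcc_of_le h.le] at hx
      rw [hval (-x) ⟨by linarith [hx.2], by linarith [hx.1]⟩, abs_neg, abs_of_nonneg hx.1]
      congr 2
      push_cast
      ring
    have h3 : ∫ x in (0 : ℝ)..om, (@fourier (2 * om) (-n) (x : AddCircle (2 * om))) •
        Gf (x : AddCircle (2 * om)) =
        ∫ x in (0 : ℝ)..om, Complex.exp (-(Real.pi / om * n * x : ℝ) * Complex.I) * (g x : ℂ) := by
      refine intervalIntegral.integral_congr fun x hx => ?_
      rw [uIcc_of_le h.le] at hx
      rw [hval x ⟨by linarith [hx.1], hx.2⟩, abs_of_nonneg hx.1]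
    rw [h1, h3, ← intervalIntegral.integral_add
      (Continuous.intervalIntegrable (by fun_prop) _ _)
      (Continuous.intervalIntegrable (by fun_prop) _ _)]
    have h4 : ∫ x in (0 : ℝ)..om, (Complex.exp ((Real.pi / om * n * x : ℝ) * Complex.I) * (g x : ℂ) +
        Complex.exp (-(Real.pi / om * n * x : ℝ) * Complex.I) * (g x : ℂ)) =
        ((2 * I n.natAbs : ℝ) : ℂ) := by
      rw [hIg, ← intervalIntegral.integral_const_mul, ← intervalIntegral.integral_ofReal]
      refine intervalIntegral.integral_congr fun x hx => ?_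
      rw [← add_mul]
      have h5 : Complex.exp ((Real.pi / om * n * x : ℝ) * Complex.I) +
          Complex.exp (-(Real.pi / om * n * x : ℝ) * Complex.I) =
          2 * Complex.cos ((Real.pi / om * n * x : ℝ) : ℂ) := by
        rw [Complex.cos]
        ring
      rw [h5, ← Complex.ofReal_cos]
      have h6 : Real.cos (Real.pi / om * n * x) = Real.cos (n.natAbs * (Real.pi / om) * x) := by
        rcases Int.natAbs_eq n with hn | hn
        · have hn' : (n : ℝ) = (n.natAbs : ℝ) := by
            have := congrArg (Int.cast : ℤ → ℝ) hn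
            rwa [Int.cast_natCast] at this
          congr 1
          rw [hn']
          ring
        · have hn' : (n : ℝ) = -(n.natAbs : ℝ) := by
            have := congrArg (Int.cast : ℤ → ℝ) hn
            rwa [Int.cast_neg, Int.cast_natCast] at this
          rw [← Real.cos_neg]
          congr 1
          rw [hn']
          ring
      rw [h6]
      push_cast
      ring
    rw [h4, Complex.real_smul]
    push_cast
    field_simp
  have hsum : Summable (fourierCoeff Gf) := by
    have h1 : Summable fun n : ℤ => |om⁻¹ * I n.natAbs| := by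
      refine Summable.of_nat_of_neg ?_ ?_
      · simp only [Int.natAbs_natCast]
        simpa [abs_mul] using hs.mul_left |om⁻¹|
      · simp only [Int.natAbs_neg, Int.natAbs_natCast]
        simpa [abs_mul] using hs.mul_left |om⁻¹|
    refine Summable.of_norm ?_
    refine h1.congr fun n => ?_
    rw [hcoef, Complex.norm_real, Real.norm_eq_abs]
  intro x hx
  have hx' : x ∈ Icc (-om) om := ⟨by linarith [hx.1], hx.2.le⟩
  have h1 := has_pointwise_sum_fourier_series_of_summable hsum (x : AddCircle (2 * om))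
  have h2 : Gf (x : AddCircle (2 * om)) = (f x : ℂ) := by
    show ((g ‖(x : AddCircle (2 * om))‖ : ℝ) : ℂ) = _
    rw [hnorm x hx', abs_of_pos hx.1, hfg hx]
  rw [h2] at h1
  have h3 := h1.nat_add_neg
  have h4 : ∀ n : ℕ, (fourierCoeff Gf (n : ℤ) • fourier (n : ℤ) (x : AddCircle (2 * om)) +
      fourierCoeff Gf (-(n : ℤ)) • fourier (-(n : ℤ)) (x : AddCircle (2 * om))) =
      ((2 * om⁻¹ * (I n * Real.cos (n * (Real.pi / om) * x)) : ℝ) : ℂ) := by
    intro n
    rw [hcoef, hcoef, Int.natAbs_neg, Int.natAbs_natCast, fourier_coe_apply, fourier_coe_apply,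
      smul_eq_mul, smul_eq_mul, ← mul_add]
    have h5 : Complex.exp (2 * Real.pi * Complex.I * (n : ℤ) * x / ((2 * om : ℝ) : ℂ)) +
        Complex.exp (2 * Real.pi * Complex.I * (-(n : ℤ) : ℤ) * x / ((2 * om : ℝ) : ℂ)) =
        2 * Complex.cos ((n * (Real.pi / om) * x : ℝ) : ℂ) := by
      rw [Complex.cos, mul_div_cancel₀ _ (two_ne_zero)]
      congr 1
      · congr 1
        push_cast
        field_simp
      · congr 1
        push_cast
        field_simp
    rw [h5, ← Complex.ofReal_cos]
    push_cast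
    ring
  simp only [h4] at h3
  have h5 : (fourierCoeff Gf 0 • fourier 0 (x : AddCircle (2 * om)) : ℂ) =
      ((om⁻¹ * I 0 : ℝ) : ℂ) := by
    rw [hcoef]
    simp
  rw [h5, ← Complex.ofReal_add, Complex.hasSum_ofReal] at h3
  have h6 := (hasSum_nat_add_iff' 1).mpr h3
  rw [Finset.sum_range_one] at h6
  have h7 := h6.tsum_eq
  have hI0 : I 0 = ∫ θ in (0 : ℝ)..om, f θ := by
    rw [hI]
    simp
  rw [tsum_mul_left] at h7
  have h8 : (∑' k : ℕ, (∫ θ in (0 : ℝ)..om, f θ *
        Real.cos ((k + 1 : ℕ) * (Real.pi / om) * θ)) *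
        Real.cos ((k + 1 : ℕ) * (Real.pi / om) * x)) =
      ∑' k : ℕ, (I (k + 1) * Real.cos ((k + 1 : ℕ) * (Real.pi / om) * x)) := rfl
  rw [h8, h7, ← hI0]
  simp
  ring

end

end Pool.Agent.Lib_helper6.Robin
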